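import Mathlib
import Pool.Agent.X132.MW.D

/-!
# `h_{n+1} ≤ 29 h_n` for vertex-transitive graphs without a system of imprimitivity of size `n`

Q1 has a positive answer, with the absolute constant `C = 29`.  Idea: if `h_{n+1} > 29 h_n`, take a
partition achieving `h_n` and its translates under the automorphism group.  No part can be cut into
two sets of small boundary, so two translated partitions agree up to a small proportion of the
vertices; hence two vertices lie in the same part for either less than one third or more than two
thirds of the translates, and being together for more than two thirds is an invariant equivalence relation.  Its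
blocks have small boundary, and one shows that there are exactly `n` of them.
-/

namespace Pool.Agent.Results.MP_f363fd_co.AbsoluteConstant

open Pool.Agent.X132.MW

/-- Let `Γ` be a finite vertex-transitive graph (possibly disconnected) and `1 ≤ n < |V|` such that
the action of `Aut Γ` on `V` has no system of imprimitivity of size `n`.  Then
`h_{n+1}(Γ) ≤ 29 h_n(Γ)`. -/
theorem result {V : Type*} [Finite V] (Γ : SimpleGraph V)
    (htr : ∀ x y : V, ∃ g : Γ ≃g Γ, g x = y) (n : ℕ) (hn : 1 ≤ n) (hnV : n < Nat.card V)
    (hno : ¬ HasImprimitivitySystem Γ n) : hway Γ (n + 1) ≤ 29 * hway Γ n := by
  have := Fintype.ofFinite V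
  exact main Γ htr n hn (by rwa [Nat.card_eq_fintype_card] at hnV) hno

end Pool.Agent.Results.MP_f363fd_co.AbsoluteConstant
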